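import Pool.Agent.H34.FQ.Targets

/-!
# Row DL1 of the board hfq (helper34, MP_63b6b1_nt)

A large minor of the squares.
-/

set_option autoImplicit false

open Finset Pool.Agent.H32.RQ Pool.Agent.H34.FQ

namespace Pool.Agent.H1.HFQ

theorem dl1_real (M al be : ℤ) (hM : 0 ≤ M) (h1 : |al * be| ≤ M ^ 2) (h2 : |al + be| ≤ 2 * M) :
    |al| ≤ 3 * M := by
  by_contra h
  push Not at h
  have h3 : |al| ≤ |al + be| + |be| := by
    have := abs_sub (al + be) be
    rwa [add_sub_cancel_right] at this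
  have h4 : M < |be| := by linarith
  rw [abs_mul] at h1
  have h5 : 3 * M * M ≤ |al| * |be| := mul_le_mul h.le h4.le hM (abs_nonneg _)
  have h6 : 0 < |al| * |be| := mul_pos (by linarith) (by linarith)
  nlinarith

theorem pf_DL1 : T_DL1 := by
  intro s x y i j
  obtain ⟨⟨p, q⟩, -, hpq⟩ := Finset.exists_max_image (univ : Finset (Mon s × Mon s))
    (fun z => |nu x z.1 * nu y z.2 - nu x z.2 * nu y z.1|)
    ⟨(⟨(i, i), le_rfl⟩, ⟨(i, i), le_rfl⟩), mem_univ _⟩
  refine ⟨p, q, ?_⟩
  obtain ⟨⟨a, b⟩, -, hac⟩ := Finset.exists_mem_eq_sup (univ : Finset (Fin s × Fin s))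
    ⟨(i, i), mem_univ _⟩ (fun p : Fin s × Fin s => (mnr x y p.1 p.2).natAbs)
  have hdm : (dm x y : ℤ) = |mnr x y a b| := by
    unfold dm
    rw [hac, Int.natCast_natAbs]
  have hmon : ∀ a c : Fin s, ∃ r : Mon s, nu x r = x a * x c ∧ nu y r = y a * y c := by
    intro a c
    rcases le_total a c with h | h
    · exact ⟨⟨(a, c), h⟩, rfl, rfl⟩
    · exact ⟨⟨(c, a), h⟩, mul_comm _ _, mul_comm _ _⟩
  set M : ℤ := |nu x p * nu y q - nu x q * nu y p| with hM
  have hM0 : 0 ≤ M := abs_nonneg _
  have hmin : ∀ a c b d : Fin s, |x a * x c * (y b * y d) - x b * x d * (y a * y c)| ≤ M := by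
    intro a c b d
    obtain ⟨r, h1, h2⟩ := hmon a c
    obtain ⟨t, h3, h4⟩ := hmon b d
    have := hpq (r, t) (mem_univ _)
    simp only at this
    rw [h1, h2, h3, h4] at this
    exact this
  have k1 := hmin a i b j
  have k2 := hmin a j b i
  have k3 := hmin a i b i
  have k4 := hmin a j b j
  set W : ℤ := mnr x y a b with hW
  have e1 : |x i * y j * W + x j * y i * W| ≤ 2 * M := by
    have h1 : x i * y j * W + x j * y i * W =
        (x a * x i * (y b * y j) - x b * x j * (y a * y i)) +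
        (x a * x j * (y b * y i) - x b * x i * (y a * y j)) := by
      rw [hW]
      unfold mnr
      ring
    rw [h1]
    exact (abs_add_le _ _).trans (by linarith)
  have e2 : |x i * y j * W * (x j * y i * W)| ≤ M ^ 2 := by
    have h1 : x i * y j * W * (x j * y i * W) =
        (x a * x i * (y b * y i) - x b * x i * (y a * y i)) *
        (x a * x j * (y b * y j) - x b * x j * (y a * y j)) := by
      rw [hW]
      unfold mnr
      ring
    rw [h1, abs_mul, sq]
    exact mul_le_mul k3 k4 (abs_nonneg _) hM0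
  have e3 := dl1_real M _ _ hM0 e2 e1
  rw [abs_mul, abs_mul, ← hdm] at e3
  zify
  rw [← hM]
  linarith

end Pool.Agent.H1.HFQ
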