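import Pool.Agent.H34.FQ.Targets
import Pool.Agent.H75.RQ.STR

/-!
# Row ST1 of the board hfq (helper34, MP_63b6b1_nt)

The structure lemma.
-/

set_option autoImplicit false

open Finset Pool.Agent.H32.RQ Pool.Agent.H34.FQ

namespace Pool.Agent.H1.HFQ

theorem st1_key {s B D : ℕ} (x y : Fin s → ℤ) (H θ φ : ℝ) (m : Fin s → Fin s → ℤ)
    (hx : ∀ i, |x i| ≤ B) (hy : ∀ i, |y i| ≤ B) (hiy : Iso D y) (hH : 0 < H)
    (hD : 4 * (B : ℝ) ^ 2 ≤ D * H)
    (hm : ∀ i l, |θ * x i * x l + φ * y i * y l - m i l| < 1 / H) (i j a e : Fin s) :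
    y a * (x i * m j e - x j * m i e) = y e * (x i * m j a - x j * m i a) := by
  have hxR : ∀ i, |(x i : ℝ)| ≤ B := by
    intro i
    have h2 : ((|x i| : ℤ) : ℝ) ≤ ((B : ℤ) : ℝ) := by exact_mod_cast hx i
    push_cast at h2
    exact h2
  have hyR : ∀ i, |(y i : ℝ)| ≤ B := by
    intro i
    have h2 : ((|y i| : ℤ) : ℝ) ≤ ((B : ℤ) : ℝ) := by exact_mod_cast hy i
    push_cast at h2
    exact h2
  set E : Fin s → Fin s → ℝ := fun i l => θ * x i * x l + φ * y i * y l - m i l with hE
  have hE1 : ∀ k, |(x i : ℝ) * E j k - x j * E i k| ≤ 2 * (B * (1 / H)) := by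
    intro k
    have h3 : |(x i : ℝ) * E j k| ≤ B * (1 / H) := by
      rw [abs_mul]
      exact mul_le_mul (hxR i) (hm j k).le (abs_nonneg _) (by positivity)
    have h4 : |(x j : ℝ) * E i k| ≤ B * (1 / H) := by
      rw [abs_mul]
      exact mul_le_mul (hxR j) (hm i k).le (abs_nonneg _) (by positivity)
    have h5 := abs_sub ((x i : ℝ) * E j k) (x j * E i k)
    linarith
  have key : ∀ a e, |mnr y (fun k => x i * m j k - x j * m i k) a e| ≤ D := by
    intro a e
    have h1 : ((mnr y (fun k => x i * m j k - x j * m i k) a e : ℤ) : ℝ) =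
        y e * ((x i : ℝ) * E j a - x j * E i a) - y a * ((x i : ℝ) * E j e - x j * E i e) := by
      unfold mnr
      simp only [hE]
      push_cast
      ring
    have h2 : |((mnr y (fun k => x i * m j k - x j * m i k) a e : ℤ) : ℝ)| ≤ D := by
      rw [h1]
      have h3 : |(y e : ℝ) * ((x i : ℝ) * E j a - x j * E i a)| ≤ B * (2 * (B * (1 / H))) := by
        rw [abs_mul]
        exact mul_le_mul (hyR e) (hE1 a) (abs_nonneg _) (by positivity)
      have h4 : |(y a : ℝ) * ((x i : ℝ) * E j e - x j * E i e)| ≤ B * (2 * (B * (1 / H))) := by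
        rw [abs_mul]
        exact mul_le_mul (hyR a) (hE1 e) (abs_nonneg _) (by positivity)
      have h5 := abs_sub ((y e : ℝ) * ((x i : ℝ) * E j a - x j * E i a))
        (y a * ((x i : ℝ) * E j e - x j * E i e))
      have h6 : B * (2 * (B * (1 / H))) + B * (2 * (B * (1 / H))) ≤ (D : ℝ) := by
        have h7 : B * (2 * (B * (1 / H))) + B * (2 * (B * (1 / H))) = 4 * (B : ℝ) ^ 2 / H := by
          field_simp
          ring
        rw [h7, div_le_iff₀ hH]
        exact hD
      linarith
    have h3 : ((|mnr y (fun k => x i * m j k - x j * m i k) a e| : ℤ) : ℝ) ≤ ((D : ℤ) : ℝ) := by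
      rw [Int.cast_abs]
      push_cast
      push_cast at h2
      exact h2
    exact_mod_cast h3
  have h := hiy (fun k => x i * m j k - x j * m i k) key a e
  unfold mnr at h
  linarith

theorem pf_ST1 : T_ST1 := by
  intro s B D x y H θ φ m hx hy hix hiy hdm hH hD hsym hm
  have h2 := st1_key x y H θ φ m hx hy hiy hH hD hm
  have hm' : ∀ i l, |φ * y i * y l + θ * x i * x l - m i l| < 1 / H := by
    intro i l
    have := hm i l
    rw [add_comm] at this
    exact this
  have h3 := st1_key y x H φ θ m hy hx hix hH hD hm'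
  have hpq : ∃ p q, mnr x y p q ≠ 0 := by
    by_contra hne
    push Not at hne
    refine hdm ?_
    unfold dm
    refine le_antisymm (Finset.sup_le fun p _ => ?_) (Nat.zero_le _)
    rw [hne p.1 p.2]
    simp
  obtain ⟨p, q, hpq⟩ := hpq
  refine Pool.Agent.H75.RQ.str_alg (fun i => (x i : ℚ)) (fun i => (y i : ℚ))
    (fun i l => (m i l : ℚ)) (fun i l => by rw [hsym i l]) (fun i j a e => ?_)
    (fun i j a e => ?_) p q ?_
  · exact_mod_cast h2 i j a e
  · exact_mod_cast h3 i j a e
  · intro h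
    refine hpq ?_
    have : ((mnr x y p q : ℤ) : ℚ) = 0 := by
      unfold mnr
      push_cast
      linarith
    exact_mod_cast this

end Pool.Agent.H1.HFQ
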